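import Mathlib
import Pool.Agent.H892.VS.Stm

/-!
# General points impose independent conditions in all degrees
-/

set_option autoImplicit false

open MvPolynomial

namespace Pool.Agent.H130.VS

open Pool.Agent.H892.VS

/-- the value of a monomial -/
noncomputable def mv {n : ℕ} (x : Fin n → ℂ) (m : Mon n) : ℂ := ∏ j, x j ^ m j

theorem mv_add {n : ℕ} (x : Fin n → ℂ) (m m' : Mon n) : mv x (m + m') = mv x m * mv x m' := by
  unfold mv
  rw [← Finset.prod_mul_distrib]
  exact Finset.prod_congr rfl fun j _ => by rw [Finsupp.add_apply, pow_add]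

theorem mv_ne {n : ℕ} (x : Fin n → ℂ) (hx : ∀ j, x j ≠ 0) (m : Mon n) : mv x m ≠ 0 :=
  Finset.prod_ne_zero_iff.2 fun j _ => pow_ne_zero _ (hx j)

theorem eval_mon {n : ℕ} (x : Fin n → ℂ) (m : Mon n) (c : ℂ) :
    eval x (monomial m c) = c * mv x m := by
  rw [eval_monomial]
  congr 1
  unfold mv
  rw [Finsupp.prod_fintype]
  intro i
  exact pow_zero _

/-- the first `k` points give independent functionals on the part of degree `u` -/
def Ind {n s r : ℕ} (T : Cox n s) (k : ℕ) (hk : k ≤ r) (u : Fin s → ℤ) (x : Fin r → Fin n → ℂ) :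
    Prop :=
  ∀ c : Fin k → ℂ, (∀ m ∈ T.mon u, ∑ i, c i * mv (x (Fin.castLE hk i)) m = 0) → c = 0

theorem wt_add {n s : ℕ} (T : Cox n s) (m m' : Mon n) : T.wt (m + m') = T.wt m + T.wt m' := by
  unfold Cox.wt
  rw [← Finset.sum_add_distrib]
  refine Finset.sum_congr rfl fun j _ => ?_
  rw [Finsupp.add_apply, Nat.cast_add, add_smul]

theorem mem_mon {n s : ℕ} (T : Cox n s) (u : Fin s → ℤ) (m : Mon n) :
    m ∈ T.mon u ↔ T.wt m = u := by
  unfold Cox.mon
  rw [Set.Finite.mem_toFinset]
  rfl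

/-- going up -/
theorem ind_up {n s r : ℕ} (T : Cox n s) (k : ℕ) (hk : k ≤ r) (m m' : Mon n) (hm : m' ≤ m)
    (x : Fin r → Fin n → ℂ) (hx : ∀ i j, x i j ≠ 0) (h : Ind T k hk (T.wt m') x) :
    Ind T k hk (T.wt m) x := by
  intro c hc
  have e : m = m' + (m - m') := (add_tsub_cancel_of_le hm).symm
  have h0 : (fun i => c i * mv (x (Fin.castLE hk i)) (m - m')) = 0 := by
    refine h _ fun a ha => ?_
    have h1 : a + (m - m') ∈ T.mon (T.wt m) := by
      rw [mem_mon] at ha ⊢
      rw [wt_add, ha, ← wt_add, ← e]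
    rw [← hc _ h1]
    refine Finset.sum_congr rfl fun i _ => ?_
    rw [mv_add]
    ring
  funext i
  have h2 := congrFun h0 i
  exact (mul_eq_zero.1 h2).resolve_right (mv_ne _ (hx _) _)

/-- the matrix of monomials -/
noncomputable def PM (r n k : ℕ) (hk : k ≤ r) (e : Fin k → Mon n) :
    Matrix (Fin k) (Fin k) (MvPolynomial (Fin r × Fin n) ℂ) :=
  Matrix.of fun i j => monomial ((e j).mapDomain fun l => (Fin.castLE hk i, l)) (1 : ℂ)

/-- the exponent of a term -/
noncomputable def DE (r n k : ℕ) (hk : k ≤ r) (e : Fin k → Mon n) (σ : Equiv.Perm (Fin k)) :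
    (Fin r × Fin n) →₀ ℕ :=
  ∑ i, (e i).mapDomain fun l => (Fin.castLE hk (σ i), l)

theorem DE_apply (r n k : ℕ) (hk : k ≤ r) (e : Fin k → Mon n) (σ : Equiv.Perm (Fin k)) (a : Fin k)
    (l : Fin n) : DE r n k hk e σ (Fin.castLE hk (σ a), l) = e a l := by
  unfold DE
  rw [Finsupp.finsetSum_apply, Finset.sum_eq_single a]
  · exact Finsupp.mapDomain_apply (f := fun l => (Fin.castLE hk (σ a), l))
      (fun l l' h => (Prod.mk.inj h).2) (e a) l
  · intro b _ hb
    refine Finsupp.mapDomain_of_notMem_range _ _ ?_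
    rintro ⟨l', hl⟩
    have h1 := (Prod.mk.inj hl).1
    exact hb (σ.injective (Fin.castLE_injective hk h1))
  · intro h
    exact absurd (Finset.mem_univ _) h

theorem det_ne (r n k : ℕ) (hk : k ≤ r) (e : Fin k → Mon n) (he : Function.Injective e) :
    (PM r n k hk e).det ≠ 0 := by
  intro h0
  have h1 : coeff (DE r n k hk e 1) (PM r n k hk e).det = 1 := by
    rw [Matrix.det_apply, coeff_sum, Finset.sum_eq_single 1]
    · have e1 : ∏ i, PM r n k hk e ((1 : Equiv.Perm (Fin k)) i) i =
          monomial (DE r n k hk e 1) (1 : ℂ) := by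
        unfold DE
        rw [monomial_sum_one]
        rfl
      rw [e1, Equiv.Perm.sign_one, one_smul, coeff_monomial, if_pos rfl]
    · intro σ _ hσ
      have e1 : ∏ i, PM r n k hk e (σ i) i = monomial (DE r n k hk e σ) (1 : ℂ) := by
        unfold DE
        rw [monomial_sum_one]
        rfl
      have e2 : DE r n k hk e σ ≠ DE r n k hk e 1 := by
        intro h
        apply hσ
        ext a
        have h3 : e a = e (σ a) := by
          ext l
          rw [← DE_apply r n k hk e σ a l, h]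
          exact DE_apply r n k hk e 1 (σ a) l
        rw [← he h3]
        rfl
      rw [e1, coeff_smul, coeff_monomial, if_neg e2, smul_zero]
    · intro h
      exact absurd (Finset.mem_univ _) h
  rw [h0, coeff_zero] at h1
  exact zero_ne_one h1

/-- one degree -/
theorem one_degree {n s : ℕ} (r : ℕ) (T : Cox n s) (k : ℕ) (hk : k ≤ r) (u : Fin s → ℤ)
    (hu : k ≤ (T.mon u).card) : ∃ q : MvPolynomial (Fin r × Fin n) ℂ, q ≠ 0 ∧
    ∀ x : Fin r → Fin n → ℂ, eval (fun p => x p.1 p.2) q ≠ 0 → Ind T k hk u x := by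
  obtain ⟨s', hs', hc⟩ := Finset.exists_subset_card_eq hu
  let e : Fin k → Mon n := fun i => (s'.equivFinOfCardEq hc).symm i
  have he : Function.Injective e := fun i j h =>
    (s'.equivFinOfCardEq hc).symm.injective (Subtype.ext h)
  refine ⟨(PM r n k hk e).det, det_ne r n k hk e he, fun x hx c h => ?_⟩
  rw [RingHom.map_det] at hx
  refine Matrix.eq_zero_of_vecMul_eq_zero hx ?_
  funext j
  have h1 := h (e j) (hs' ((s'.equivFinOfCardEq hc).symm j).2)
  rw [Pi.zero_apply, ← h1]
  unfold Matrix.vecMul dotProduct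
  refine Finset.sum_congr rfl fun i _ => ?_
  congr 1
  show eval (fun p : Fin r × Fin n => x p.1 p.2)
    (monomial ((e j).mapDomain fun l => (Fin.castLE hk i, l)) (1 : ℂ)) = _
  rw [eval_monomial, one_mul, Finsupp.prod_mapDomain_index_inj]
  · rw [Finsupp.prod_fintype]
    · rfl
    · intro l
      exact pow_zero _
  · intro l l' h
    exact (Prod.mk.inj h).2

/-- Dickson's lemma -/
theorem dickson {n : ℕ} (A : Set (Mon n)) :
    ∃ E : Finset (Mon n), (∀ m ∈ E, m ∈ A) ∧ ∀ m ∈ A, ∃ m' ∈ E, m' ≤ m := by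
  have hpwo := Set.isPWO_of_wellQuasiOrderedLE A
  have hfin := (setOfPred_minimal_antichain (fun m => m ∈ A)).finite_of_partiallyWellOrderedOn
    (hpwo.mono (setOfPred_minimal_subset _))
  refine ⟨hfin.toFinset, fun m hm => ?_, fun m hm => ?_⟩
  · exact ((Set.Finite.mem_toFinset hfin).1 hm).1
  · obtain ⟨z, hz, hz'⟩ := hpwo.exists_le_minimal hm
    exact ⟨z, (Set.Finite.mem_toFinset hfin).2 hz', hz⟩

/-- all degrees -/
theorem general {n s : ℕ} (r : ℕ) (T : Cox n s) : ∃ q : MvPolynomial (Fin r × Fin n) ℂ, q ≠ 0 ∧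
    ∀ x : Fin r → Fin n → ℂ, eval (fun p => x p.1 p.2) q ≠ 0 → (∀ i j, x i j ≠ 0) ∧
      ∀ (k : ℕ) (hk : k ≤ r) (u : Fin s → ℤ), k ≤ (T.mon u).card → Ind T k hk u x := by
  classical
  choose E hE1 hE2 using fun k : Fin (r + 1) =>
    dickson {m : Mon n | (k : ℕ) ≤ (T.mon (T.wt m)).card}
  have hQ : ∀ (k : Fin (r + 1)) (m : Mon n), ∃ q : MvPolynomial (Fin r × Fin n) ℂ, q ≠ 0 ∧
      (m ∈ E k → ∀ x : Fin r → Fin n → ℂ, eval (fun p => x p.1 p.2) q ≠ 0 →
        Ind T k (Nat.lt_succ_iff.1 k.2) (T.wt m) x) := by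
    intro k m
    by_cases h : m ∈ E k
    · obtain ⟨q, h1, h2⟩ := one_degree r T k (Nat.lt_succ_iff.1 k.2) (T.wt m) (hE1 k m h)
      exact ⟨q, h1, fun _ => h2⟩
    · exact ⟨1, one_ne_zero, fun h' => absurd h' h⟩
  choose Q hQ0 hQ1 using hQ
  refine ⟨(∏ p, X p) * ∏ k, ∏ m ∈ E k, Q k m, mul_ne_zero ?_ ?_, fun x hx => ?_⟩
  · exact Finset.prod_ne_zero_iff.2 fun p _ => X_ne_zero p
  · exact Finset.prod_ne_zero_iff.2 fun k _ => Finset.prod_ne_zero_iff.2 fun m _ => hQ0 k m
  · rw [map_mul] at hx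
    have hx1 := left_ne_zero_of_mul hx
    have hx2 := right_ne_zero_of_mul hx
    rw [map_prod] at hx1 hx2
    have hx3 : ∀ i j, x i j ≠ 0 := by
      intro i j
      have h := Finset.prod_ne_zero_iff.1 hx1 (i, j) (Finset.mem_univ _)
      rwa [eval_X] at h
    refine ⟨hx3, fun k hk u hu => ?_⟩
    rcases Nat.eq_zero_or_pos k with h0 | h0
    · subst h0
      intro c _
      exact Subsingleton.elim _ _
    · obtain ⟨m, hm⟩ := Finset.card_pos.1 (lt_of_lt_of_le h0 hu)
      rw [mem_mon] at hm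
      subst hm
      let k' : Fin (r + 1) := ⟨k, Nat.lt_succ_iff.2 hk⟩
      obtain ⟨m', hm', hle⟩ := hE2 k' m hu
      refine ind_up T k hk m m' hle x hx3 ?_
      refine hQ1 k' m' hm' x ?_
      have h := Finset.prod_ne_zero_iff.1 hx2 k' (Finset.mem_univ _)
      rw [map_prod] at h
      exact Finset.prod_ne_zero_iff.1 h m' hm'

/-- the polynomial with given coefficients -/
noncomputable def psi {n s : ℕ} (T : Cox n s) (u : Fin s → ℤ) :
    (T.mon u → ℂ) →ₗ[ℂ] MvPolynomial (Fin n) ℂ where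
  toFun w := ∑ m : T.mon u, monomial m.1 (w m)
  map_add' w w' := by
    rw [← Finset.sum_add_distrib]
    exact Finset.sum_congr rfl fun m _ => by rw [Pi.add_apply, map_add]
  map_smul' c w := by
    rw [RingHom.id_apply, Finset.smul_sum]
    exact Finset.sum_congr rfl fun m _ => by rw [Pi.smul_apply, map_smul]

theorem psi_apply {n s : ℕ} (T : Cox n s) (u : Fin s → ℤ) (w : T.mon u → ℂ) :
    psi T u w = ∑ m : T.mon u, monomial m.1 (w m) := rfl

theorem coeff_psi {n s : ℕ} (T : Cox n s) (u : Fin s → ℤ) (w : T.mon u → ℂ) (m : T.mon u) :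
    coeff m.1 (psi T u w) = w m := by
  classical
  rw [psi_apply, coeff_sum, Finset.sum_eq_single m]
  · rw [coeff_monomial, if_pos rfl]
  · intro m' _ h
    rw [coeff_monomial, if_neg fun h' => h (Subtype.ext h')]
  · intro h
    exact absurd (Finset.mem_univ _) h

theorem coeff_psi_zero {n s : ℕ} (T : Cox n s) (u : Fin s → ℤ) (w : T.mon u → ℂ) (m : Mon n)
    (hm : m ∉ T.mon u) : coeff m (psi T u w) = 0 := by
  classical
  rw [psi_apply, coeff_sum]
  refine Finset.sum_eq_zero fun m' _ => ?_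
  rw [coeff_monomial, if_neg]
  rintro rfl
  exact hm m'.2

theorem eval_psi {n s : ℕ} (T : Cox n s) (u : Fin s → ℤ) (w : T.mon u → ℂ) (y : Fin n → ℂ) :
    eval y (psi T u w) = ∑ m : T.mon u, mv y m.1 * w m := by
  rw [psi_apply, map_sum]
  refine Finset.sum_congr rfl fun m _ => ?_
  rw [eval_mon, mul_comm]

/-- the Hilbert function in degree `u` -/
theorem dim {n s r : ℕ} (h1 : S_PTI) (T : Cox n s) (x : Fin r → Fin n → ℂ) (u : Fin s → ℤ)
    (h : Ind T (min r (T.mon u).card) (min_le_left _ _) u x) :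
    Module.finrank ℂ (T.ipart (T.ptIdeal x) u) + min r (T.mon u).card = (T.mon u).card := by
  classical
  let M : Matrix (Fin r) (T.mon u) ℂ := Matrix.of fun i m => mv (x i) m.1
  have hrank : M.rank = min r (T.mon u).card := by
    apply le_antisymm
    · apply le_min
      · have h2 := M.rank_le_card_height
        rwa [Fintype.card_fin] at h2
      · have h2 := M.rank_le_card_width
        rwa [Fintype.card_coe] at h2
    · rw [Matrix.rank_eq_finrank_span_row]
      let v : Fin (min r (T.mon u).card) → (T.mon u → ℂ) :=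
        fun i => M.row (Fin.castLE (min_le_left _ _) i)
      have hv : LinearIndependent ℂ v := by
        rw [Fintype.linearIndependent_iff]
        intro g hg i
        have h2 := h g (fun m hm => by
          have h3 := congrFun hg ⟨m, hm⟩
          rw [Finset.sum_apply] at h3
          exact h3)
        exact congrFun h2 i
      have h2 := finrank_span_eq_card hv
      rw [Fintype.card_fin] at h2
      rw [← h2]
      apply Submodule.finrank_mono
      apply Submodule.span_mono
      rintro _ ⟨i, rfl⟩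
      exact ⟨_, rfl⟩
  have hinj : Function.Injective (psi T u) := by
    intro w w' hw
    funext m
    rw [← coeff_psi T u w m, hw, coeff_psi]
  have heval : ∀ (w : T.mon u → ℂ) (i : Fin r), eval (x i) (psi T u w) = M.mulVecLin w i := by
    intro w i
    rw [eval_psi]
    rfl
  have hmap : T.ipart (T.ptIdeal x) u = (LinearMap.ker M.mulVecLin).map (psi T u) := by
    ext g
    rw [Submodule.mem_map]
    constructor
    · intro hg
      have hg1 : g ∈ T.ptIdeal x := hg.1
      have hg2 : g ∈ T.part u := hg.2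
      have hg3 := ((h1 n s r T x).2.2 u g hg2).1 hg1
      have hpsi : psi T u (fun m => coeff m.1 g) = g := by
        ext m
        by_cases hm : m ∈ T.mon u
        · exact coeff_psi T u (fun m => coeff m.1 g) ⟨m, hm⟩
        · rw [coeff_psi_zero T u _ m hm]
          by_contra h0
          exact hm ((mem_mon T u m).2 (hg2 m (Ne.symm h0)))
      refine ⟨fun m => coeff m.1 g, ?_, hpsi⟩
      rw [LinearMap.mem_ker]
      funext i
      rw [← heval, hpsi, hg3 i]
      rfl
    · rintro ⟨w, hw, rfl⟩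
      have hg2 : psi T u w ∈ T.part u := by
        intro m hm
        by_contra h0
        exact hm (coeff_psi_zero T u w m fun h' => h0 ((mem_mon T u m).1 h'))
      refine ⟨((h1 n s r T x).2.2 u _ hg2).2 fun i => ?_, hg2⟩
      rw [heval, LinearMap.mem_ker.1 hw]
      rfl
  rw [hmap, ← (Submodule.equivMapOfInjective (psi T u) hinj _).finrank_eq]
  have h3 := LinearMap.finrank_range_add_finrank_ker M.mulVecLin
  have h4 : Module.finrank ℂ (T.mon u → ℂ) = (T.mon u).card := by
    rw [Module.finrank_fintype_fun_eq_card, Fintype.card_coe]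
  have h5 : Module.finrank ℂ (LinearMap.range M.mulVecLin) = min r (T.mon u).card := hrank
  rw [h4, h5] at h3
  omega

theorem t_GEN (h1 : S_PTI) : S_GEN := by
  intro n s r T
  obtain ⟨q, hq, h⟩ := general r T
  refine ⟨q, hq, fun x hx => ⟨(h x hx).1, (h1 n s r T x).1, fun u => ?_⟩⟩
  exact dim h1 T x u ((h x hx).2 _ _ u (min_le_right _ _))

end Pool.Agent.H130.VS
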